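import Pool.Agent.H77.Shk3

set_option autoImplicit false

namespace Pool.Agent.Results.MP_501377_al.Universal

universe u

/-- There is a separable group with left-invariant metric into which every separable group with
left-invariant metric embeds isometrically. -/
theorem result :
    ∃ (G : Type) (_ : Group G) (_ : MetricSpace G), IsTopologicalGroup G ∧
      (∀ g x y : G, dist (g * x) (g * y) = dist x y) ∧ TopologicalSpace.SeparableSpace G ∧
      ∀ (H : Type u) [Group H] [MetricSpace H] [IsTopologicalGroup H]
        [TopologicalSpace.SeparableSpace H], (∀ g x y : H, dist (g * x) (g * y) = dist x y) →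
        ∃ φ : H →* G, ∀ x y, dist (φ x) (φ y) = dist x y :=
  Pool.Agent.H77.Shk.main

end Pool.Agent.Results.MP_501377_al.Universal
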